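import Pool.Agent.H419Z.Final

/-!
Lattice mass gap for `SU(N)` Wilson lattice Yang-Mills theory in an enlarged strong coupling
regime, uniformly in the volume, the boundary condition, the dimension and `N`.
-/

open Pool.Agent.H419Z

theorem Pool.Agent.Results.MP_7f377f_mp.ClusterGap.result (ρ : ℝ) (hρ : ρ < 1) :
    ∃ C κ : ℝ, 0 < κ ∧ ∀ (d N : ℕ) (β : ℝ), 2 ≤ d → 2 ≤ N →
      β ^ 2 * (d - 1) * (64 * (d - 1) * N / (N + 1) + 64 / 3 * N ^ 2 / (N ^ 2 - 1)) ≤ ρ →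
      ∀ (P : Finset (Plaq d)) (Λ : Finset (Link d)) (η : Link d → SU N) (A B : Finset (Link d))
        (a b : Link d → ℝ) (F G : (Link d → SU N) → ℝ) (R : ℝ), IsObs A a F → IsObs B b G →
        (∀ e ∈ A, ∀ f ∈ B, R ≤ dist e.1 f.1) →
        |cov (N * β) P Λ η F G| ≤
          C / N * Real.exp (-κ * R) * √(∑ e ∈ A, a e ^ 2) * √(∑ e ∈ B, b e ^ 2) :=
  mass_gap ρ hρ
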